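import Pool.Agent.X187.EA.Lat
import Pool.Agent.X187.EA.Ker
import Pool.Agent.H47R2.EA.BASIC

set_option autoImplicit false

/-! The two libraries on the Edwards-Anderson model have the same Gibbs states. -/

open MeasureTheory

namespace Pool.Agent.X59.EA

open Pool.Agent.X187.EA
open Pool.H47EA (dist1 Coupling glue)

variable {d : ℕ}

theorem dist1_iff (x y : Fin d → ℤ) : dist1 x y = 1 ↔
    ∃ i, y = x + Pi.single i 1 ∨ x = y + Pi.single i 1 := by
  constructor
  · intro h
    unfold dist1 at h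
    have h1 : ∃ i, (x i - y i).natAbs ≠ 0 := by
      by_contra hcon
      push Not at hcon
      rw [Finset.sum_eq_zero fun i _ => hcon i] at h
      exact absurd h (by norm_num)
    obtain ⟨i, hi⟩ := h1
    have h2 : (x i - y i).natAbs + ∑ j ∈ Finset.univ.erase i, (x j - y j).natAbs = 1 := by
      rw [← h]
      exact Finset.add_sum_erase Finset.univ (fun j => (x j - y j).natAbs) (Finset.mem_univ i)
    have h3 : ∑ j ∈ Finset.univ.erase i, (x j - y j).natAbs = 0 := by omega
    have h4 : ∀ j, j ≠ i → x j = y j := by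
      intro j hj
      have := Finset.sum_eq_zero_iff.1 h3 j (Finset.mem_erase.2 ⟨hj, Finset.mem_univ j⟩)
      omega
    refine ⟨i, ?_⟩
    have h5 : x i - y i = 1 ∨ x i - y i = -1 := by omega
    rcases h5 with h5 | h5
    · right
      funext j
      rw [Pi.add_apply]
      by_cases hj : j = i
      · subst hj
        rw [Pi.single_eq_same]; omega
      · rw [Pi.single_eq_of_ne hj, add_zero, h4 j hj]
    · left
      funext j
      rw [Pi.add_apply]
      by_cases hj : j = i
      · subst hj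
        rw [Pi.single_eq_same]; omega
      · rw [Pi.single_eq_of_ne hj, add_zero, h4 j hj]
  · have key : ∀ (x : Fin d → ℤ) (i : Fin d), dist1 x (x + Pi.single i 1) = 1 := by
      intro x i
      unfold dist1
      rw [Finset.sum_eq_single i]
      · simp
      · intro j _ hj
        rw [Pi.add_apply, Pi.single_eq_of_ne hj]
        simp
      · intro h; exact absurd (Finset.mem_univ i) h
    rintro ⟨i, rfl | rfl⟩
    · exact key x i
    · rw [Pool.H47EA.Basic.dist1_comm]
      exact key y i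

theorem adj_nd (e : (Fin d → ℤ) × Fin d) : (Pool.H47EA.lat d).Adj e.1 (nd e) :=
  (dist1_iff e.1 (nd e)).2 ⟨e.2, Or.inl rfl⟩

/-- the couplings indexed by `(x, i)` -/
def cJ (J : Coupling d) (e : (Fin d → ℤ) × Fin d) : Bool := J ⟨s(e.1, nd e), adj_nd e⟩

theorem inj_edge : Function.Injective fun e : (Fin d → ℤ) × Fin d => s(e.1, nd e) := by
  rintro ⟨x, i⟩ ⟨y, j⟩ h
  simp only [Sym2.eq_iff, nd] at h
  rcases h with ⟨h1, h2⟩ | ⟨h1, h2⟩
  · subst h1
    have h3 : (Pi.single i 1 : Fin d → ℤ) = Pi.single j 1 := add_left_cancel h2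
    have h4 : i = j := by
      by_contra hne
      have := congrFun h3 i
      rw [Pi.single_eq_same, Pi.single_eq_of_ne hne] at this
      exact absurd this (by norm_num)
    rw [h4]
  · exfalso
    have h3 := congrFun h2 i
    rw [h1] at h3
    simp only [Pi.add_apply, Pi.single_eq_same] at h3
    by_cases hij : i = j
    · subst hij
      rw [Pi.single_eq_same] at h3
      omega
    · rw [Pi.single_eq_of_ne hij] at h3
      omega

theorem edgesOf_eq (Λ : Finset (Fin d → ℤ)) :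
    Pool.H47EA.edgesOf Λ = (eds Λ).image fun e => s(e.1, nd e) := by
  ext z
  rw [Pool.H47EA.Basic.mem_edgesOf, Finset.mem_image]
  constructor
  · rintro ⟨x, hx, y, hxy, rfl⟩
    obtain ⟨i, h | h⟩ := (dist1_iff x y).1 hxy
    · refine ⟨(x, i), (mem_eds Λ _).2 (Or.inl hx), ?_⟩
      show s(x, x + Pi.single i 1) = s(x, y)
      rw [h]
    · refine ⟨(y, i), (mem_eds Λ _).2 (Or.inr ?_), ?_⟩
      · show y + Pi.single i 1 ∈ Λ
        rw [← h]; exact hx
      · show s(y, y + Pi.single i 1) = s(x, y)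
        rw [← h, Sym2.eq_swap]
  · rintro ⟨e, he, rfl⟩
    rcases (mem_eds Λ e).1 he with h | h
    · exact ⟨e.1, h, nd e, adj_nd e, rfl⟩
    · exact ⟨nd e, h, e.1, (adj_nd e).symm, Sym2.eq_swap⟩

theorem sg_eq (b : Bool) : Pool.H47EA.sg b = sgn b := rfl

theorem ham_eq (β : ℝ) (J : Coupling d) (Λ : Finset (Fin d → ℤ)) (σ : (Fin d → ℤ) → Bool) :
    β * Pool.H47EA.ham J Λ σ = HH (EAs d) (env β (fun e => sgn (cJ J e)) 0) Λ σ := by
  show _ = ∑ i ∈ (eds Λ).disjSum Λ, _
  rw [Finset.sum_disjSum]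
  have h0 : ∑ x ∈ Λ, env β (fun e => sgn (cJ J e)) (0 : (Fin d → ℤ) → ℝ) (Sum.inr x) *
      (EAs d).chi (Sum.inr x) σ = 0 :=
    Finset.sum_eq_zero fun x _ => by
      show β * (0 : ℝ) * _ = 0
      ring
  rw [h0, add_zero]
  unfold Pool.H47EA.ham
  rw [edgesOf_eq, Finset.sum_image fun a _ b _ h => inj_edge h, Finset.mul_sum]
  refine Finset.sum_congr rfl fun e _ => ?_
  rw [Pool.H47EA.Basic.bond_mk]
  have hJ : Pool.H47EA.Jc J e.1 (nd e) = sgn (cJ J e) := by
    unfold Pool.H47EA.Jc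
    rw [dif_pos (adj_nd e)]
    rfl
  rw [hJ]
  show β * (sgn (cJ J e) * sgn (σ e.1) * sgn (σ (nd e))) =
    β * sgn (cJ J e) * (sgn (σ e.1) * sgn (σ (nd e)))
  ring

theorem sum_glue (Λ : Finset (Fin d → ℤ)) (ω : (Fin d → ℤ) → Bool)
    (F : ((Fin d → ℤ) → Bool) → ℝ) : ∑ η : Λ → Bool, F (glue Λ η ω) = EE Λ F ω := by
  classical
  have hglue : ∀ η : Λ → Bool,
      fl (Λ.filter fun x => glue Λ η ω x ≠ ω x) ω = glue Λ η ω := by
    intro η
    funext x
    unfold fl
    by_cases hx : x ∈ Λ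
    · by_cases h : glue Λ η ω x = ω x
      · have hn : x ∉ Λ.filter fun x => glue Λ η ω x ≠ ω x := by
          rw [Finset.mem_filter]
          exact fun h2 => h2.2 h
        rw [if_neg hn, h]
      · rw [if_pos (Finset.mem_filter.2 ⟨hx, h⟩)]
        cases h1 : glue Λ η ω x <;> cases h2 : ω x <;> simp_all
    · rw [if_neg (fun h2 => hx (Finset.mem_filter.1 h2).1)]
      unfold glue
      rw [dif_neg hx]
  have hfl : ∀ B ⊆ Λ, glue Λ (fun x => fl B ω x.1) ω = fl B ω := by
    intro B hB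
    funext x
    unfold glue
    by_cases hx : x ∈ Λ
    · rw [dif_pos hx]
    · rw [dif_neg hx]
      unfold fl
      rw [if_neg (fun h => hx (hB h))]
  unfold EE
  refine Finset.sum_bij' (fun η _ => Λ.filter fun x => glue Λ η ω x ≠ ω x)
    (fun B _ => fun x => fl B ω x.1) (fun η _ => Finset.mem_powerset.2 (Finset.filter_subset _ _))
    (fun B _ => Finset.mem_univ _) (fun η _ => ?_) (fun B hB => ?_) (fun η _ => ?_)
  · funext x
    have h1 := congrFun (hglue η) x.1
    have h2 : glue Λ η ω x.1 = η x := by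
      unfold glue
      rw [dif_pos x.2]
    exact h1.trans h2
  · have hB' := Finset.mem_powerset.1 hB
    show (Λ.filter fun x => glue Λ (fun x => fl B ω x.1) ω x ≠ ω x) = B
    rw [hfl B hB']
    ext x
    rw [Finset.mem_filter]
    constructor
    · rintro ⟨_, h⟩
      by_contra hx
      apply h
      unfold fl
      rw [if_neg hx]
    · intro hx
      refine ⟨hB' hx, ?_⟩
      unfold fl
      rw [if_pos hx]
      cases ω x <;> simp
  · exact congrArg F (hglue η).symm

theorem gE_eq (β : ℝ) (J : Coupling d) (Λ : Finset (Fin d → ℤ)) (ω : (Fin d → ℤ) → Bool)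
    (f : ((Fin d → ℤ) → Bool) → ℝ) : Pool.H47EA.gE β J Λ ω f =
      gg (EAs d) (env β (fun e => sgn (cJ J e)) 0) Λ f ω := by
  unfold Pool.H47EA.gE Pool.H47EA.Zp gg
  simp only [ham_eq]
  rw [sum_glue Λ ω fun τ => Real.exp (HH (EAs d) (env β (fun e => sgn (cJ J e)) 0) Λ τ) * f τ,
    sum_glue Λ ω fun τ => Real.exp (HH (EAs d) (env β (fun e => sgn (cJ J e)) 0) Λ τ)]

theorem isGibbs_iff' (β : ℝ) (J : Coupling d) (π : Measure ((Fin d → ℤ) → Bool)) :
    Pool.H47EA.IsGibbs β J π ↔ IsG (EAs d) (env β (fun e => sgn (cJ J e)) 0) π := by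
  constructor
  · rintro ⟨hp, hD⟩
    refine isG_of hp (Set.range fun q : (Fin d → ℤ) × (Fin d → ℤ) => Finset.Icc q.1 q.2)
      (fun Λ => ?_) ?_
    · obtain ⟨n, hn⟩ := (cubes d).sub Λ
      exact ⟨_, ⟨(fun _ => -(n : ℤ), fun _ => (n : ℤ)), rfl⟩, hn n le_rfl⟩
    · rintro _ ⟨q, rfl⟩ A hA
      rw [hD q.1 q.2 A hA]
      exact integral_congr_ae (ae_of_all _ fun τ => gE_eq β J _ τ _)
  · intro hG
    refine ⟨hG.1, fun a b A hA => ?_⟩
    rw [hG.sets (Finset.Icc a b) hA]
    exact integral_congr_ae (ae_of_all _ fun τ => (gE_eq β J _ τ _).symm)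

theorem unique_bridge (β : ℝ) (J : Coupling d) (h : ∃! π, Pool.H47EA.IsGibbs β J π) :
    ¬ HasN (EAs d) (env β (fun e => sgn (cJ J e)) 0) 2 := by
  rw [← unique_iff _ (cubes d)]
  simpa only [isGibbs_iff'] using h

end Pool.Agent.X59.EA
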