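import Pool.Agent.X187.EA.Dim
import Pool.Agent.X187.EA.Ker

set_option autoImplicit false
set_option linter.unusedSectionVars false

/-! Topologically typical environments of spin systems. -/

open MeasureTheory Filter Topology Set

namespace Pool.Agent.X59.EA

open Pool.Agent.X187.EA

variable {S I : Type} [DecidableEq S] [Countable S] [DecidableEq I] (Y : Sys S I) (X : Exh S)

theorem isClosed_Mi (f : C(S → Bool, ℝ)) (a : ℝ) : IsClosed {u : I → ℝ | a ≤ Mi Y X u f} := by
  have : {u : I → ℝ | a ≤ Mi Y X u f} = ⋂ n, {u | a ≤ MM Y u (X.E n) f} := by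
    ext u
    rw [mem_iInter]
    exact le_ciInf_iff (bdd_MM Y X u f)
  rw [this]
  exact isClosed_iInter fun n => isClosed_le continuous_const (MM_cont Y (X.E n) f)

/-- a closed condition for `m` linearly independent Gibbs states -/
def FC {m : ℕ} (x : Fin m → C(S → Bool, ℝ)) : Set (I → ℝ) :=
  {u | ∀ c : Fin m → ℝ, ‖c‖ = 1 → 1 / 2 ≤ max (Mi Y X u (lc x c)) (Mi Y X u (lc x (-c)))}

theorem isClosed_FC {m : ℕ} (x : Fin m → C(S → Bool, ℝ)) : IsClosed (FC Y X x) := by
  have : FC Y X x = ⋂ c : Fin m → ℝ, ⋂ _ : ‖c‖ = 1,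
      ({u : I → ℝ | 1 / 2 ≤ Mi Y X u (lc x c)} ∪ {u : I → ℝ | 1 / 2 ≤ Mi Y X u (lc x (-c))}) := by
    ext u
    rw [mem_iInter]
    refine forall_congr' fun c => ?_
    rw [mem_iInter]
    refine forall_congr' fun _ => ?_
    rw [le_max_iff]
    rfl
  rw [this]
  exact isClosed_iInter fun c => isClosed_iInter fun _ =>
    (isClosed_Mi Y X _ _).union (isClosed_Mi Y X _ _)

variable {Y}

theorem lc_near {m : ℕ} {x y : Fin m → C(S → Bool, ℝ)}
    (h : ∀ i, ‖x i - y i‖ ≤ 1 / (2 * ((m : ℝ) + 1))) {c : Fin m → ℝ} (hc : ‖c‖ = 1) :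
    ‖lc x c - lc y c‖ ≤ 1 / 2 := by
  have e : lc x c - lc y c = ∑ i, c i • (x i - y i) := by
    unfold lc
    rw [← Finset.sum_sub_distrib]
    exact Finset.sum_congr rfl fun i _ => (smul_sub _ _ _).symm
  rw [e]
  have hm : (0 : ℝ) < (m : ℝ) + 1 := by positivity
  have h1 : ∀ i : Fin m, ‖c i • (x i - y i)‖ ≤ 1 / (2 * ((m : ℝ) + 1)) := by
    intro i
    rw [norm_smul]
    have h2 : ‖c i‖ ≤ 1 := hc ▸ norm_le_pi_norm c i
    calc ‖c i‖ * ‖x i - y i‖ ≤ 1 * (1 / (2 * ((m : ℝ) + 1))) :=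
          mul_le_mul h2 (h i) (norm_nonneg _) zero_le_one
      _ = _ := one_mul _
  have h3 : ‖∑ i, c i • (x i - y i)‖ ≤ (m : ℝ) * (1 / (2 * ((m : ℝ) + 1))) := by
    calc ‖∑ i, c i • (x i - y i)‖ ≤ ∑ i, ‖c i • (x i - y i)‖ := norm_sum_le _ _
      _ ≤ ∑ _i : Fin m, 1 / (2 * ((m : ℝ) + 1)) := Finset.sum_le_sum fun i _ => h1 i
      _ = (m : ℝ) * (1 / (2 * ((m : ℝ) + 1))) := by simp
  refine h3.trans ?_
  rw [mul_one_div, div_le_div_iff₀ (by positivity) (by norm_num)]
  nlinarith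

variable (Y)

/-- Having `m` linearly independent Gibbs states is an `F_σ` condition. -/
theorem hasN_iff (u : I → ℝ) (m : ℕ) : HasN Y u m ↔
    ∃ j : Fin m → ℕ, u ∈ FC Y X fun i => TopologicalSpace.denseSeq C(S → Bool, ℝ) (j i) := by
  constructor
  · intro h
    obtain ⟨x, hx⟩ := h.lower X
    have hε : (0 : ℝ) < 1 / (2 * ((m : ℝ) + 1)) := by positivity
    have hj : ∀ i, ∃ j, ‖x i - TopologicalSpace.denseSeq C(S → Bool, ℝ) j‖ ≤
        1 / (2 * ((m : ℝ) + 1)) := by
      intro i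
      obtain ⟨_, hj, ⟨j, rfl⟩⟩ := Metric.dense_iff.1 (TopologicalSpace.denseRange_denseSeq
        C(S → Bool, ℝ)) (x i) _ hε
      refine ⟨j, ?_⟩
      rw [← dist_eq_norm, dist_comm]
      exact (Metric.mem_ball.1 hj).le
    choose j hj using hj
    refine ⟨j, fun c hc => ?_⟩
    have h1 := hx c
    rw [hc] at h1
    have h4 := lc_near (y := fun i => TopologicalSpace.denseSeq C(S → Bool, ℝ) (j i)) hj hc
    have h5 := lc_near (y := fun i => TopologicalSpace.denseSeq C(S → Bool, ℝ) (j i)) hj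
      (c := -c) (by rw [norm_neg, hc])
    have h2 := Mi_lip Y X u (lc x c)
      (lc (fun i => TopologicalSpace.denseSeq C(S → Bool, ℝ) (j i)) c)
    have h3 := Mi_lip Y X u (lc x (-c))
      (lc (fun i => TopologicalSpace.denseSeq C(S → Bool, ℝ) (j i)) (-c))
    rcases le_max_iff.1 h1 with h6 | h6
    · refine le_max_of_le_left ?_
      have := (abs_le.1 h2).2
      linarith
    · refine le_max_of_le_right ?_
      have := (abs_le.1 h3).2
      linarith
  · rintro ⟨j, hj⟩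
    exact HasN.of_lower X _ fun c hc => lt_of_lt_of_le (by norm_num) (hj c hc)

/-- **Typical environments.** `W`: parameters (temperatures), `A → K`: the disorder. -/
theorem typical (X : Exh S) {W A K : Type} [TopologicalSpace W] [TopologicalSpace K]
    (Φ : W → (A → K) → I → ℝ) (hΦ : Continuous fun p : W × (A → K) => Φ p.1 p.2)
    (hfin : ∀ (F : Finset A), ∃ Q : Finset I, ∀ (w : W) (J J' : A → K),
      (∀ a, a ∉ F → J' a = J a) → ∀ i, i ∉ Q → Φ w J' i = Φ w J i)
    {B : Set W} (hB : IsCompact B) {m : ℕ} {J0 : A → K}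
    (h0 : ∀ w ∈ B, ¬ HasN Y (Φ w J0) m) :
    ∀ᶠ J in residual (A → K), ∀ w ∈ B, ¬ HasN Y (Φ w J) m := by
  classical
  have hBc : CompactSpace B := isCompact_iff_compactSpace.1 hB
  have key : ∀ j : Fin m → ℕ, ∀ᶠ J in residual (A → K), ∀ w ∈ B,
      Φ w J ∉ FC Y X fun i => TopologicalSpace.denseSeq C(S → Bool, ℝ) (j i) := by
    intro j
    set G := FC Y X fun i => TopologicalSpace.denseSeq C(S → Bool, ℝ) (j i) with hG
    have hcl : IsClosed (Prod.snd '' {p : B × (A → K) | Φ p.1 p.2 ∈ G}) := by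
      apply isClosedMap_snd_of_compactSpace
      exact (isClosed_FC Y X _).preimage (hΦ.comp
        ((continuous_subtype_val.comp continuous_fst).prodMk continuous_snd))
    have hopen : IsOpen {J : A → K | ∀ w ∈ B, Φ w J ∉ G} := by
      have e : {J : A → K | ∀ w ∈ B, Φ w J ∉ G} =
          (Prod.snd '' {p : B × (A → K) | Φ p.1 p.2 ∈ G})ᶜ := by
        ext J
        constructor
        · rintro hJ ⟨⟨w, J'⟩, hp, rfl⟩
          exact hJ w.1 w.2 hp
        · intro hJ w hw hp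
          exact hJ ⟨(⟨w, hw⟩, J), hp, rfl⟩
      rw [e]
      exact hcl.isOpen_compl
    refine residual_of_dense_open hopen ?_
    rw [dense_iff_inter_open]
    rintro U hU ⟨J1, hJ1⟩
    obtain ⟨F, v, hv, hsub⟩ := isOpen_pi_iff.1 hU J1 hJ1
    obtain ⟨Q, hQ⟩ := hfin F
    refine ⟨fun a => if a ∈ F then J1 a else J0 a, hsub fun a ha => ?_, fun w hw hp => ?_⟩
    · show (if a ∈ F then J1 a else J0 a) ∈ v a
      rw [if_pos (by exact_mod_cast ha)]
      exact (hv a (by exact_mod_cast ha)).2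
    · apply h0 w hw
      have h1 : HasN Y (Φ w fun a => if a ∈ F then J1 a else J0 a) m :=
        (hasN_iff Y X _ m).2 ⟨j, hp⟩
      refine h1.modify (Q := Q) fun i hi => ?_
      refine hQ w _ _ (fun a ha => ?_) i hi
      show J0 a = if a ∈ F then J1 a else J0 a
      rw [if_neg ha]
  have hall := eventually_countable_forall.2 key
  filter_upwards [hall] with J hJ w hw hN
  obtain ⟨j, hj⟩ := (hasN_iff Y X _ m).1 hN
  exact hJ j w hw hj

theorem typical_sigma (X : Exh S) {W A K : Type} [TopologicalSpace W] [TopologicalSpace K]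
    (Φ : W → (A → K) → I → ℝ) (hΦ : Continuous fun p : W × (A → K) => Φ p.1 p.2)
    (hfin : ∀ (F : Finset A), ∃ Q : Finset I, ∀ (w : W) (J J' : A → K),
      (∀ a, a ∉ F → J' a = J a) → ∀ i, i ∉ Q → Φ w J' i = Φ w J i)
    {B : Set W} (hB : IsSigmaCompact B) {m : ℕ} {J0 : A → K}
    (h0 : ∀ w ∈ B, ¬ HasN Y (Φ w J0) m) :
    ∀ᶠ J in residual (A → K), ∀ w ∈ B, ¬ HasN Y (Φ w J) m := by
  obtain ⟨C, hC, rfl⟩ := hB
  have := eventually_countable_forall.2 fun n => typical Y X Φ hΦ hfin (hC n) (m := m) (J0 := J0)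
    fun w hw => h0 w (mem_iUnion.2 ⟨n, hw⟩)
  filter_upwards [this] with J hJ w hw
  obtain ⟨n, hn⟩ := mem_iUnion.1 hw
  exact hJ n w hn

/-! ### Zero environment -/

omit [Countable S] [DecidableEq I] in
theorem EE_local {Λ : Finset S} {g : (S → Bool) → ℝ}
    (hg : ∀ σ σ' : S → Bool, (∀ x ∈ Λ, σ x = σ' x) → g σ = g σ') (σ σ' : S → Bool) :
    EE Λ g σ = EE Λ g σ' := by
  classical
  have h1 := EE_fl (Finset.filter_subset (fun x => σ x ≠ σ' x) Λ) g σ
  rw [← h1]
  unfold EE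
  refine Finset.sum_congr rfl fun B _ => hg _ _ fun x hx => ?_
  unfold fl
  by_cases h2 : σ x = σ' x
  · have : x ∉ Λ.filter (fun x => σ x ≠ σ' x) := by
      rw [Finset.mem_filter]
      exact fun h => h.2 h2
    simp only [if_neg this, h2]
  · have : x ∈ Λ.filter (fun x => σ x ≠ σ' x) := Finset.mem_filter.2 ⟨hx, h2⟩
    have h3 : (!σ x) = σ' x := by
      cases h : σ x <;> cases h' : σ' x <;> simp_all
    simp only [if_pos this, h3]

theorem zero_unique (X : Exh S) : ∃! π : Measure (S → Bool), IsG Y (0 : I → ℝ) π := by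
  classical
  obtain ⟨π0, h0, -⟩ := exists_max Y X (0 : I → ℝ) 0
  refine ⟨π0, h0, fun π hπ => ?_⟩
  have hp0 := h0.1
  have hp := hπ.1
  have hgg : ∀ (Λ : Finset S) (f : (S → Bool) → ℝ) (σ : S → Bool),
      gg Y (0 : I → ℝ) Λ f σ = EE Λ f σ / EE Λ (fun _ => (1 : ℝ)) σ := by
    intro Λ f σ
    have hH : ∀ τ, HH Y (0 : I → ℝ) Λ τ = 0 := fun τ =>
      Finset.sum_eq_zero fun i _ => by rw [Pi.zero_apply, zero_mul]
    unfold gg
    simp only [hH, Real.exp_zero, one_mul]
  refine ext_of_generate_finite (measurableCylinders fun _ : S => Bool)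
    generateFrom_measurableCylinders.symm isPiSystem_measurableCylinders ?_ (by simp)
  intro A hA
  obtain ⟨s, T, hT, hAe⟩ := (mem_measurableCylinders _).1 hA
  have hAm : MeasurableSet A := MeasurableSet.of_mem_measurableCylinders hA
  have hloc : ∀ σ σ' : S → Bool, (∀ x ∈ s, σ x = σ' x) →
      A.indicator (fun _ => (1 : ℝ)) σ = A.indicator (fun _ => (1 : ℝ)) σ' := by
    intro σ σ' h
    have e : σ ∈ A ↔ σ' ∈ A := by
      rw [hAe, mem_cylinder, mem_cylinder]
      have : s.restrict σ = s.restrict σ' := funext fun x => h x.1 x.2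
      rw [this]
    by_cases h1 : σ ∈ A
    · rw [indicator_of_mem h1, indicator_of_mem (e.1 h1)]
    · rw [indicator_of_notMem h1, indicator_of_notMem (fun h2 => h1 (e.2 h2))]
  have hc : ∀ ρ : Measure (S → Bool), IsG Y (0 : I → ℝ) ρ →
      (ρ A).toReal = EE s (A.indicator fun _ => (1 : ℝ)) (fun _ => true) /
        EE s (fun _ => (1 : ℝ)) (fun _ => true) := by
    intro ρ hρ
    have := hρ.1
    rw [hρ.sets s hAm]
    have h2 : ∀ σ, gg Y (0 : I → ℝ) s (A.indicator fun _ => (1 : ℝ)) σ =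
        EE s (A.indicator fun _ => (1 : ℝ)) (fun _ => true) /
        EE s (fun _ => (1 : ℝ)) (fun _ => true) := by
      intro σ
      rw [hgg, EE_local hloc σ (fun _ => true),
        EE_local (g := fun _ => (1 : ℝ)) (fun _ _ _ => rfl) σ (fun _ => true)]
    simp only [h2, integral_const, probReal_univ, smul_eq_mul, one_mul]
  have h3 := (hc π hπ).trans (hc π0 h0).symm
  exact (ENNReal.toReal_eq_toReal_iff' (measure_ne_top _ _) (measure_ne_top _ _)).1 h3

end Pool.Agent.X59.EA
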