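import Pool.Agent.X59.EA.Cat
import Pool.Agent.X59.EA.Bridge
import Pool.Agent.H47R2.EA.FINAL
import Pool.Agent.H47R2.EA.BALL
import Pool.Agent.H47R2.EA.COMB
import Pool.Agent.H47R2.EA.COV1
import Pool.Agent.H47R2.EA.COV2
import Pool.Agent.H47R2.EA.DIFF
import Pool.Agent.H47R2.EA.EXPL
import Pool.Agent.H47R2.EA.GIBBSE
import Pool.Agent.H47R2.EA.GIBBSU
import Pool.Agent.H47R2.EA.GOOD
import Pool.Agent.H47R2.EA.INF
import Pool.Agent.H47R2.EA.ISING
import Pool.Agent.H47R2.EA.KHIN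
import Pool.Agent.H47R2.EA.KR
import Pool.Agent.H47R2.EA.NET
import Pool.Agent.H47R2.EA.REDUCE
import Pool.Agent.H47R2.EA.SIGN
import Pool.Agent.H47R2.EA.TRACE
import Pool.Agent.H613R2.EA.CHAIN

set_option autoImplicit false

/-! Typical real environments on `ℤ^d`. -/

open MeasureTheory Filter Topology Set

namespace Pool.Agent.X59.EA

open Pool.Agent.X187.EA Pool.H47EA

/-- one vector of signs with unique Gibbs states for `0 < β ≤ c/√d` (from the starting library) -/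
theorem exists_signs : ∃ c : ℝ, 0 < c ∧ ∀ d : ℕ, 1 ≤ d → ∃ s : (Fin d → ℤ) × Fin d → Bool,
    ∀ β : ℝ, 0 < β → β ≤ c / √(d : ℝ) → ¬ HasN (EAs d) (env β (fun e => sgn (s e)) 0) 2 := by
  have hb : St_BASIC := t_BASIC
  have hbl : St_BALL := t_BALL
  have hi : St_ISING := t_ISING (t_COV2 t_COV1)
  have hinf : St_INF := t_INF hb hi t_DIFF t_REDUCE
  have hkr : St_KR := t_KR t_KHIN (t_NET hbl)
  have hg : St_GOOD := t_GOOD t_COMB hkr t_TRACE t_SIGN
  obtain ⟨c, hc, h⟩ := main_of hb hinf (t_EXPL hb) t_CHAIN t_GIBBSU (t_GIBBSE hb) hg hbl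
  refine ⟨c, hc, fun d hd => ?_⟩
  obtain ⟨J, hJ⟩ := (h d hd).exists
  exact ⟨cJ J, fun β h0 h1 => unique_bridge β J (hJ.1 β h0 h1)⟩

variable {d : ℕ}

/-- the environment of `J : edges → K` -/
theorem typical_env (K : Set ℝ) (h : (Fin d → ℤ) → ℝ) {B : Set ℝ} (hB : IsSigmaCompact B) {m : ℕ}
    {J0 : (Fin d → ℤ) × Fin d → K}
    (h0 : ∀ β ∈ B, ¬ HasN (EAs d) (env β (fun e => (J0 e : ℝ)) h) m) :
    ∀ᶠ J in residual ((Fin d → ℤ) × Fin d → K), ∀ β ∈ B,
      ¬ HasN (EAs d) (env β (fun e => (J e : ℝ)) h) m := by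
  classical
  refine typical_sigma (EAs d) (cubes d)
    (fun (β : ℝ) (J : (Fin d → ℤ) × Fin d → K) => env β (fun e => (J e : ℝ)) h) ?_ ?_ hB h0
  · refine continuous_pi fun i => ?_
    rcases i with e | x
    · exact continuous_fst.mul (continuous_subtype_val.comp
        ((continuous_apply e).comp continuous_snd))
    · exact continuous_fst.mul continuous_const
  · intro F
    refine ⟨F.disjSum ∅, fun β J J' hJ i hi => ?_⟩
    rcases i with e | x
    · have he : e ∉ F := fun h => hi (Finset.inl_mem_disjSum.2 h)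
      show β * (J' e : ℝ) = β * (J e : ℝ)
      rw [hJ e he]
    · rfl

theorem zero_env (β : ℝ) : ¬ HasN (EAs d) (env β (fun _ => (0 : ℝ)) 0) 2 := by
  rw [← unique_iff _ (cubes d)]
  have e : env β (fun _ => (0 : ℝ)) (0 : (Fin d → ℤ) → ℝ) = 0 := by
    funext i
    rcases i with e | x
    · show β * (0 : ℝ) = 0
      ring
    · show β * (0 : ℝ) = 0
      ring
  rw [e]
  exact zero_unique (EAs d) (cubes d)

/-- zero temperature parameter -/
theorem zero_beta (J : (Fin d → ℤ) × Fin d → ℝ) : ¬ HasN (EAs d) (env 0 J 0) 2 := by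
  rw [← unique_iff _ (cubes d)]
  have e : env 0 J (0 : (Fin d → ℤ) → ℝ) = 0 := by
    funext i
    show (0 : ℝ) * _ = 0
    ring
  rw [e]
  exact zero_unique (EAs d) (cubes d)

theorem typical_zero (K : Set ℝ) (hK : (0 : ℝ) ∈ K) :
    ∀ᶠ J in residual ((Fin d → ℤ) × Fin d → K), ∀ β : ℝ,
      ¬ HasN (EAs d) (env β (fun e => (J e : ℝ)) 0) 2 := by
  have h1 := typical_env K (0 : (Fin d → ℤ) → ℝ) (B := univ) isSigmaCompact_univ (m := 2)
    (J0 := fun _ => ⟨0, hK⟩) fun β _ => zero_env β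
  filter_upwards [h1] with J hJ β
  exact hJ β (mem_univ β)

theorem typical_signs : ∃ c : ℝ, 0 < c ∧ ∀ d : ℕ, 1 ≤ d →
    ∀ᶠ J in residual ((Fin d → ℤ) × Fin d → ({-1, 1} : Set ℝ)), ∀ β : ℝ, 0 ≤ β →
      β ≤ c / √(d : ℝ) → ¬ HasN (EAs d) (env β (fun e => (J e : ℝ)) 0) 2 := by
  obtain ⟨c, hc, h⟩ := exists_signs
  refine ⟨c, hc, fun d hd => ?_⟩
  obtain ⟨s, hs⟩ := h d hd
  have hmem : ∀ b, sgn b ∈ ({-1, 1} : Set ℝ) := by
    intro b
    cases b
    · left; simp [sgn]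
    · right; simp [sgn]
  have h1 : ∀ n : ℕ, ∀ᶠ J in residual ((Fin d → ℤ) × Fin d → ({-1, 1} : Set ℝ)),
      ∀ β ∈ Icc (1 / ((n : ℝ) + 1)) (c / √(d : ℝ)),
        ¬ HasN (EAs d) (env β (fun e => (J e : ℝ)) 0) 2 := by
    intro n
    refine typical_env _ 0 isCompact_Icc.isSigmaCompact (J0 := fun e => ⟨sgn (s e), hmem _⟩)
      fun β hβ => ?_
    exact hs β (lt_of_lt_of_le (by positivity) hβ.1) hβ.2
  filter_upwards [eventually_countable_forall.2 h1] with J hJ β hβ0 hβ1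
  rcases hβ0.eq_or_lt with h2 | h2
  · rw [← h2]
    exact zero_beta _
  · obtain ⟨n, hn⟩ := exists_nat_one_div_lt h2
    exact hJ n β ⟨hn.le, hβ1⟩

/-- critical parameter -/
noncomputable def bC (J : (Fin d → ℤ) × Fin d → ℝ) (h : (Fin d → ℤ) → ℝ) : ENNReal :=
  ⨆ (β : ℝ) (_ : 0 < β ∧ ¬ HasN (EAs d) (env β J h) 2), ENNReal.ofReal β

theorem typical_bC (K : Set ℝ) (h : (Fin d → ℤ) → ℝ) :
    ∀ᶠ J in residual ((Fin d → ℤ) × Fin d → K), bC (fun e => (J e : ℝ)) h =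
      ⨆ J0 : (Fin d → ℤ) × Fin d → K, bC (fun e => (J0 e : ℝ)) h := by
  set M : ENNReal := ⨆ J0 : (Fin d → ℤ) × Fin d → K, bC (fun e => (J0 e : ℝ)) h with hM
  have h1 : ∀ q : ℚ, ((Real.toNNReal q : NNReal) : ENNReal) < M →
      ∀ᶠ J in residual ((Fin d → ℤ) × Fin d → K),
        ((Real.toNNReal q : NNReal) : ENNReal) < bC (fun e => (J e : ℝ)) h := by
    intro q hq
    obtain ⟨J0, hJ0⟩ := lt_iSup_iff.1 hq
    unfold bC at hJ0
    simp only [lt_iSup_iff] at hJ0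
    obtain ⟨β, hβ, hlt⟩ := hJ0
    have h2 := typical_env K h (B := {β}) isCompact_singleton.isSigmaCompact (m := 2) (J0 := J0)
      fun β' hβ' => by rw [mem_singleton_iff.1 hβ']; exact hβ.2
    filter_upwards [h2] with J hJ
    refine lt_of_lt_of_le hlt ?_
    unfold bC
    exact le_iSup₂ (f := fun (β : ℝ) (_ : 0 < β ∧ ¬ HasN (EAs d) (env β (fun e => (J e : ℝ)) h) 2)
      => ENNReal.ofReal β) β ⟨hβ.1, hJ β rfl⟩
  have h3 : ∀ᶠ J in residual ((Fin d → ℤ) × Fin d → K), ∀ q : ℚ,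
      ((Real.toNNReal q : NNReal) : ENNReal) < M →
        ((Real.toNNReal q : NNReal) : ENNReal) < bC (fun e => (J e : ℝ)) h := by
    rw [eventually_countable_forall]
    intro q
    by_cases hq : ((Real.toNNReal q : NNReal) : ENNReal) < M
    · filter_upwards [h1 q hq] with J hJ _
      exact hJ
    · exact Eventually.of_forall fun J h => absurd h hq
  filter_upwards [h3] with J hJ
  refine le_antisymm (le_iSup (fun J0 : (Fin d → ℤ) × Fin d → K => bC (fun e => (J0 e : ℝ)) h) J) ?_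
  by_contra hcon
  push Not at hcon
  obtain ⟨q, -, hq1, hq2⟩ := ENNReal.lt_iff_exists_rat_btwn.1 hcon
  exact absurd (hJ q hq2) (not_lt.2 hq1.le)

/-- typical sets are dense if `K` is closed -/
theorem dense_typical {A : Type} [Countable A] {K : Set ℝ} (hK : IsClosed K) {s : Set (A → K)}
    (hs : s ∈ residual (A → K)) : Dense s := by
  have : PolishSpace K := hK.polishSpace
  exact dense_of_mem_residual hs

end Pool.Agent.X59.EA
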